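import Pool.Agent.Lib.MP_3f6bc3_an.Plane

set_option autoImplicit false

namespace Pool.Agent.Results.MP_3f6bc3_an.NoEquilibrium

open Filter Topology

/-- In the plane (`n = 2`) there are distinct non-zero points `x k` without accumulation point and
masses `a k > 0` with `∑ a k / |x k| < ∞` whose force field
`F y = ∑ a k (x k - y) / |y - x k| ^ 2` converges to a non-zero vector at every `y ∉ {x k}`. -/
theorem result :
    ∃ (x : ℕ → EuclideanSpace ℝ (Fin 2)) (a : ℕ → ℝ),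
      Function.Injective x ∧ (∀ k, x k ≠ 0) ∧ (∀ p, ¬ AccPt p (𝓟 (Set.range x))) ∧
      (∀ k, 0 < a k) ∧ Summable (fun k => a k / ‖x k‖) ∧
      ∀ y, y ∉ Set.range x →
        ∃ F, HasSum (fun k => (a k / ‖y - x k‖ ^ 2) • (x k - y)) F ∧ F ≠ 0 := by
  obtain ⟨x, a, h1, h2, h3, h4, h5, h6⟩ := Pool.Agent.Lib.MP_3f6bc3_an.plane_config
  refine ⟨x, a, h1, h2, ?_, h4, h5, fun y hy => ?_⟩
  · intro p hp
    have hinf := Set.Infinite.of_accPt (hp.nhds_inter (Metric.ball_mem_nhds p one_pos))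
    rw [← Nat.cofinite_eq_atTop] at h3
    have hfin : {k | ¬ (‖p‖ + 1 ≤ ‖x k‖)}.Finite := h3.eventually_ge_atTop (‖p‖ + 1)
    refine hinf ((hfin.image x).subset ?_)
    rintro _ ⟨hb, k, rfl⟩
    refine ⟨k, ?_, rfl⟩
    have := norm_sub_norm_le (x k) p
    rw [mem_ball_iff_norm] at hb
    simp only [Set.mem_ofPred_eq, not_le]
    linarith
  · obtain ⟨F, hF0, hF⟩ := h6 y hy
    exact ⟨F, hF, hF0⟩

end Pool.Agent.Results.MP_3f6bc3_an.NoEquilibrium
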